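import Pool.Agent.Y39.DJ.Main

/-!
# The numbers `π + r e`: algebraic relations between the digits, in all bases at once

Let `a_1, …, a_L` be the first `L` digits of `x` in base `b` and let
`A(z) = a_1 z + ⋯ + a_L z ^ L`. If `x` is algebraic of degree at most `D` there are nonzero
polynomials `P(z, w)` of degree at most `D` in `w` and of moderate degree in `z` with
`P(z, A(z)) ≡ 0 mod z ^ (L + 1)`; for rational `x` and `D = 1` the degree in `z` is bounded (the
digits satisfy a linear recurrence). For random digits the smallest possible degree in `z` is about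
`L / (D + 1)`.

If `1, e, π` are linearly dependent over `ℚ`, then one of the numbers `π + r e`, `r ∈ ℚ`, is
rational. It is classical that at most one of them is algebraic. We prove that for all `D` and `H`
at every precision `X` all the numbers `π + r e`, `r` of height at most `H`, with at most one
exception, satisfy in all bases `b` at once the following: there is no relation of degree at most
`D` for the digits up to the precision `X` (`L` digits, `b ^ L ≥ X`) whose degree `k` in `z`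
satisfies `(k + 1) log b < c log X - C`. More generally this holds for every finite family of real
numbers any two of which determine (up to algebraic dependence) a number such as `e`, `π`, `log q`.

Proof: a relation of small degree is made small by Siegel's lemma (starting library
`Pool.Agent.W472.AC`) and gives an integer polynomial of degree at most `D` and moderate height
which is very small at `x`, hence an algebraic number near `x`. This cannot happen for all the
`x_j` at once, because the product of the conjugates of an algebraic relation for `θ` over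
`ℤ[x_1, …, x_J]` would give an integer polynomial too small at `θ`.
-/

set_option autoImplicit false

namespace Pool.Agent.Results.MP_58e087_nt.AlgebraicDigits

open Finset Polynomial
open Pool.Agent.Y39.DG Pool.Agent.Y39.DH Pool.Agent.Y39.DI Pool.Agent.Y39.DJ

theorem family_one (θ : ℝ) (hθ : HasMeasure θ) (t : ℝ) (H D : ℕ) :
    ∃ c C : ℝ, 0 < c ∧ 0 ≤ C ∧ ∀ X : ℝ, 1 ≤ X → ∃ x₀ : ℝ, ∀ x ∈ Family θ t H, x ≠ 0 → x ≠ x₀ →
      DigitRich D c C X x := by
  classical
  obtain ⟨S, hS⟩ : ∃ S : Finset ℝ, S = (family_finite θ t H).toFinset.filter fun x => x ≠ 0 :=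
    ⟨_, rfl⟩
  have hSm : ∀ x, x ∈ S ↔ x ∈ Family θ t H ∧ x ≠ 0 := by
    intro x
    rw [hS, mem_filter, Set.Finite.mem_toFinset]
  obtain ⟨c, C, hc, hC, hR⟩ := few_not_digitRich S 1 (by
    intro T hT hT2
    obtain ⟨x, y, hxy, rfl⟩ := Finset.card_eq_two.mp hT2
    have hx := (hSm x).mp (hT (by simp))
    have hy := (hSm y).mp (hT (by simp))
    refine ⟨θ, hθ, ?_⟩
    have := family_pair θ t (hasMeasure_ne_zero hθ) H x y hx.1 hy.1 hx.2 hy.2 hxy
    rwa [Finset.coe_pair]) D
  refine ⟨c, C, hc, hC, fun X hX => ?_⟩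
  have h1 := hR X hX
  have hfin : {x ∈ (S : Set ℝ) | ¬ DigitRich D c C X x}.Finite :=
    (Finset.finite_toSet S).subset fun x hx => hx.1
  rw [Set.ncard_le_one_iff hfin] at h1
  by_cases hne : ∃ x₀ ∈ S, ¬ DigitRich D c C X x₀
  · obtain ⟨x₀, h2, h3⟩ := hne
    refine ⟨x₀, fun x hx hx0 hxx => ?_⟩
    by_contra hcon
    exact hxx (h1 ⟨(hSm x).mpr ⟨hx, hx0⟩, hcon⟩ ⟨h2, h3⟩)
  · push Not at hne
    exact ⟨0, fun x hx hx0 _ => hne x ((hSm x).mpr ⟨hx, hx0⟩)⟩

theorem pi_add (H D : ℕ) :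
    ∃ c C : ℝ, 0 < c ∧ 0 ≤ C ∧ ∀ X : ℝ, 1 ≤ X → ∃ r₀ : ℚ, ∀ r : ℚ, |r.num| ≤ H → r.den ≤ H →
      r ≠ r₀ → DigitRich D c C X (Real.pi + r * Real.exp 1) := by
  classical
  have h1 : {r : ℚ | |r.num| ≤ H ∧ r.den ≤ H}.Finite := by
    refine ((Finset.Icc (-(H : ℤ)) H ×ˢ Finset.range (H + 1)).image
      (fun x : ℤ × ℕ => (x.1 : ℚ) / x.2)).finite_toSet.subset ?_
    rintro r ⟨h1, h2⟩
    rw [Finset.mem_coe, mem_image]
    refine ⟨(r.num, r.den), ?_, Rat.num_div_den r⟩
    rw [mem_product, Finset.mem_Icc, mem_range]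
    exact ⟨abs_le.mp h1, by omega⟩
  obtain ⟨f, hf⟩ : ∃ f : ℚ → ℝ, f = fun r : ℚ => Real.pi + (r : ℝ) * Real.exp 1 := ⟨_, rfl⟩
  have hinj : Function.Injective f := by
    intro r s hrs
    rw [hf] at hrs
    have h2 : (r : ℝ) * Real.exp 1 = s * Real.exp 1 := add_left_cancel hrs
    exact_mod_cast mul_right_cancel₀ (Real.exp_pos 1).ne' h2
  obtain ⟨S, hS⟩ : ∃ S : Finset ℝ, S = h1.toFinset.image f := ⟨_, rfl⟩
  obtain ⟨c, C, hc, hC, hR⟩ := few_not_digitRich S 1 (by
    intro T hT hT2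
    obtain ⟨x, y, hxy, rfl⟩ := Finset.card_eq_two.mp hT2
    have hx := hT (show x ∈ ({x, y} : Finset ℝ) by simp)
    have hy := hT (show y ∈ ({x, y} : Finset ℝ) by simp)
    rw [hS, mem_image] at hx hy
    obtain ⟨r, _, hr⟩ := hx
    obtain ⟨s, _, hs⟩ := hy
    refine ⟨Real.exp 1, hasMeasure_e, ?_⟩
    have hr' : Real.pi + (r : ℝ) * Real.exp 1 ^ 1 = x := by rw [← hr, hf, pow_one]
    have hs' : Real.pi + (s : ℝ) * Real.exp 1 ^ 1 = y := by rw [← hs, hf, pow_one]
    have := pair_add (Real.exp 1) Real.pi r s 1 1 le_rfl le_rfl (by rw [hr', hs']; exact hxy)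
    rw [hr', hs'] at this
    rwa [Finset.coe_pair]) D
  refine ⟨c, C, hc, hC, fun X hX => ?_⟩
  have h2 := hR X hX
  have hfin : {x ∈ (S : Set ℝ) | ¬ DigitRich D c C X x}.Finite :=
    (Finset.finite_toSet S).subset fun x hx => hx.1
  rw [Set.ncard_le_one_iff hfin] at h2
  have hSm : ∀ r : ℚ, |r.num| ≤ H → r.den ≤ H → f r ∈ (S : Set ℝ) := by
    intro r h3 h4
    rw [hS, Finset.mem_coe]
    exact mem_image_of_mem f ((Set.Finite.mem_toFinset h1).mpr ⟨h3, h4⟩)
  by_cases hne : ∃ r₀ : ℚ, |r₀.num| ≤ H ∧ r₀.den ≤ H ∧ ¬ DigitRich D c C X (f r₀)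
  · obtain ⟨r₀, h3, h4, h5⟩ := hne
    refine ⟨r₀, fun r h6 h7 hrr => ?_⟩
    by_contra hcon
    have h8 : ¬ DigitRich D c C X (f r) := by rw [hf]; exact hcon
    exact hrr (hinj (h2 ⟨hSm r h6 h7, h8⟩ ⟨hSm r₀ h3 h4, h5⟩))
  · push Not at hne
    refine ⟨0, fun r h6 h7 _ => ?_⟩
    have := hne r h6 h7
    rwa [hf] at this

/-- **Main theorem.** `AlgRelation b x D L k`: there is a nonzero `P ∈ ℚ[z][w]` of degree `≤ D`
with coefficients in `ℚ[z]` of degree `≤ k` such that `z ^ (L + 1)` divides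
`P(z, a_1 z + ⋯ + a_L z ^ L)`, the `a_i` being the digits of `x` in base `b`.
`DigitRich D c C X x`: for all `b ≥ 2` and all `L`, `k` with `b ^ L ≥ X` and
`AlgRelation b x D L k` one has `(k + 1) log b ≥ c log X - C`.

(A) Let `θ` be a real number with a transcendence measure of polynomial type in every degree, and
let `θ` be algebraic over `ℤ[x_1, …, x_J]`, `x_j` real. Then for every `D` there are `c > 0` and `C`
such that for every `X ≥ 1` some `x_j` satisfies `DigitRich D c C X`. Such `θ` are `e`, `π` and the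
logarithms of positive rational numbers other than `1`.

(B) If for every subset `T` of `r + 1` elements of a finite set `S` of real numbers some such `θ`
is algebraic over `ℤ[T]`, then for every `X` at most `r` elements of `S` do not satisfy
`DigitRich D c C X`.

(C) For such `θ`, all real `t` and all `H`: for every `X` all non-zero numbers `t + r θ ^ k`
(`1 ≤ k ≤ H`, `r` rational of height at most `H`) and `t θ ^ l` (`|l| ≤ H`), with at most one
exception, satisfy `DigitRich D c C X`.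

(D) For all `H` and `D` there are `c > 0` and `C` such that for every `X ≥ 1` the numbers
`π + r e`, `r` rational of height at most `H`, with at most one exception, satisfy
`DigitRich D c C X`. -/
theorem result :
    (∀ θ : ℝ, HasMeasure θ → ∀ (J : ℕ) (x : Fin J → ℝ),
      IsAlgebraic (Algebra.adjoin ℤ (Set.range x)) θ → ∀ D : ℕ,
      ∃ c C : ℝ, 0 < c ∧ 0 ≤ C ∧ ∀ X : ℝ, 1 ≤ X → ∃ j, DigitRich D c C X (x j)) ∧
    (HasMeasure (Real.exp 1) ∧ HasMeasure Real.pi ∧
      ∀ q : ℚ, 0 < q → q ≠ 1 → HasMeasure (Real.log q)) ∧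
    (∀ (S : Finset ℝ) (r : ℕ), (∀ T ⊆ S, T.card = r + 1 →
        ∃ θ : ℝ, HasMeasure θ ∧ IsAlgebraic (Algebra.adjoin ℤ (T : Set ℝ)) θ) → ∀ D : ℕ,
      ∃ c C : ℝ, 0 < c ∧ 0 ≤ C ∧ ∀ X : ℝ, 1 ≤ X →
        {x ∈ (S : Set ℝ) | ¬ DigitRich D c C X x}.ncard ≤ r) ∧
    (∀ θ : ℝ, HasMeasure θ → ∀ (t : ℝ) (H D : ℕ), ∃ c C : ℝ, 0 < c ∧ 0 ≤ C ∧
      ∀ X : ℝ, 1 ≤ X → ∃ x₀ : ℝ, ∀ x ∈ Family θ t H, x ≠ 0 → x ≠ x₀ →
        DigitRich D c C X x) ∧
    (∀ H D : ℕ, ∃ c C : ℝ, 0 < c ∧ 0 ≤ C ∧ ∀ X : ℝ, 1 ≤ X → ∃ r₀ : ℚ, ∀ r : ℚ,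
      |r.num| ≤ H → r.den ≤ H → r ≠ r₀ →
      DigitRich D c C X (Real.pi + r * Real.exp 1)) :=
  ⟨fun θ hθ _ x h D => digitRich_of_algebraic x θ hθ h D,
    ⟨hasMeasure_e, hasMeasure_pi, hasMeasure_log⟩,
    fun S r h D => few_not_digitRich S r h D, fun θ hθ t H D => family_one θ hθ t H D,
    pi_add⟩

end Pool.Agent.Results.MP_58e087_nt.AlgebraicDigits
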