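import Pool.Agent.Y87.TW.Tow
import Pool.Agent.Y124.NFPoly

/-!
# `1, e, π` as values of `1, e^x, 4 arctan x`: almost all points and tuples

At `x = 1` the functions `e^x` and `p(x) = 4 arctan x` take the values `e` and `π`. We consider `p`, `log p`, logarithms
`log(x - b_l)` and arbitrary towers of exponentials `E_m = exp(P_m(x, p, log p, log(x - b_l), E_0, …, E_(m-1)))` with
polynomials `P_m` (for instance `e^x`, `e^(e^x)`, `p^p`, `p^(e^x)`, `e^p`, `e^(p²)`, `p^√2`, with the values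
`e, e^e, π^π, π^e, e^π, e^(π²), π^√2` at `x = 1`), and show that for almost all points `x` (tuples of points) of number
fields of bounded degree the values of these functions are independent, in the sense of (approximate) algebraic relations
of bounded degree and polynomially bounded height, over the field generated by arbitrary complex constants. The proof
contains the algebraic independence of these functions over `ℂ(x)` (by Ax's theorem).
-/

set_option autoImplicit false

open NumberField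

namespace Pool.Agent.Results.MP_58e087_nt.AlmostAllPoints

/-- The elements of the number field `F` with image in `L` which are quotients of two integers of `F` all of whose
conjugates have absolute value at most `T`. -/
def Points (F : Type) [Field F] [NumberField F] (ι : F →+* ℂ) (L : Set ℂ) (T : ℝ) : Set F :=
  {x | ι x ∈ L ∧ ∃ a b : 𝓞 F, b ≠ 0 ∧ (∀ φ : F →+* ℂ, ‖φ a‖ ≤ T ∧ ‖φ b‖ ≤ T) ∧ x = a / b}

/-- The functions `E_m(x) = exp(P_m(x, p, log p, log(x - b_1), …, log(x - b_k), E_0(x), …, E_(m-1)(x)))`, where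
`p = 4 arctan x` and `P_m` is a polynomial with complex coefficients. -/
noncomputable def tower {k : ℕ} (b : Fin k → ℂ) (P : (m : ℕ) → MvPolynomial (Fin 3 ⊕ (Fin k ⊕ Fin m)) ℂ) (x : ℂ) :
    ℕ → ℂ
  | m => Complex.exp (MvPolynomial.eval (Sum.elim ![x, 4 * Complex.arctan x, Complex.log (4 * Complex.arctan x)]
      (Sum.elim (fun l => Complex.log (x - b l)) (fun j : Fin m => tower b P x j))) (P m))

/-- The numbers `p`, `log p`, `log(x - b_1), …, log(x - b_k)`, `E_0(x), …, E_(M-1)(x)`, where `p = 4 arctan x`. -/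
noncomputable def values {k : ℕ} (b : Fin k → ℂ) (P : (m : ℕ) → MvPolynomial (Fin 3 ⊕ (Fin k ⊕ Fin m)) ℂ) (M : ℕ)
    (x : ℂ) : Fin 2 ⊕ (Fin k ⊕ Fin M) → ℂ :=
  Sum.elim ![4 * Complex.arctan x, Complex.log (4 * Complex.arctan x)]
    (Sum.elim (fun l => Complex.log (x - b l)) (fun j => tower b P x j))

/-- The `n`-tuples `t` of points of `F` for which there is a polynomial `Q` of degree at most `d` in each variable, with
coefficients of the form `∑ ξ_i ι(c_i)`, where the `c_i` are integers of `F` all of whose conjugates have absolute value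
at most `T ^ A`, such that the value of `Q` at the numbers `values b P M (t_j)`, `j ≤ n`, is at most `T ^ (-B)` times the
absolute value of some nonzero coefficient of `Q`. -/
def Exceptional {k : ℕ} (b : Fin k → ℂ) (P : (m : ℕ) → MvPolynomial (Fin 3 ⊕ (Fin k ⊕ Fin m)) ℂ) (M n d : ℕ) {g : ℕ}
    (F : Type) [Field F] [NumberField F] (ι : F →+* ℂ) (ξ : Fin g → ℂ) (L : Set ℂ) (A B T : ℝ) : Set (Fin n → F) :=
  {t | (∀ j, t j ∈ Points F ι L T) ∧ ∃ Q : MvPolynomial (Fin n × (Fin 2 ⊕ (Fin k ⊕ Fin M))) ℂ,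
    (∀ y, Q.degreeOf y ≤ d) ∧
    (∀ s, ∃ c : Fin g → 𝓞 F, (∀ i (φ : F →+* ℂ), ‖φ (c i)‖ ≤ T ^ A) ∧ Q.coeff s = ∑ i, ξ i * ι (c i)) ∧
    ∃ s₀, Q.coeff s₀ ≠ 0 ∧
      ‖MvPolynomial.aeval (fun y : Fin n × (Fin 2 ⊕ (Fin k ⊕ Fin M)) => values b P M (ι (t y.1)) y.2) Q‖ ≤
        T ^ (-B) * ‖Q.coeff s₀‖}

/-- Let `b_1, …, b_k` be distinct complex numbers different from `±i`, let `P_0, P_1, …, P_(M-1)` be polynomials as in
`tower` such that no nontrivial rational combination of them is of the form `c + q₁ i p + q₂ log p + ∑ r_l log(x - b_l)`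
with a constant `c` and rational `q₁, q₂, r_l` (as polynomials in the variables `x, p, log p, log(x - b_l), E_j`), and let
`L` be a compact set of numbers `x` such that `(1 + ix)/(1 - ix)`, `4 arctan x` and all `x - b_l` are not in `(-∞, 0]` and
`ix ≠ 1` (for instance `L = [1/2, 2]`, if no `b_l` is in `[1/2, ∞)`). For all `m`, `n`, `g`, `d`, `A` and `ε > 0` there are
`B`, `C`, `T₀` such that for every number field `F` of degree at most `m`, every embedding of `F` in `ℂ`, all complex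
numbers `ξ_1, …, ξ_g` and all `T ≥ T₀` the number of exceptional `n`-tuples is at most `C T^ε N^(n - 1)`, where `N` is the
number of points. -/
theorem result {k : ℕ} (b : Fin k → ℂ) (hb : Function.Injective b) (hb' : ∀ l, b l ≠ Complex.I ∧ b l ≠ -Complex.I)
    (P : (m : ℕ) → MvPolynomial (Fin 3 ⊕ (Fin k ⊕ Fin m)) ℂ) (M : ℕ)
    (hP : ∀ (s : Fin M → ℚ) (q₁ q₂ : ℚ) (r : Fin k → ℚ) (c : ℂ),
      ∑ m : Fin M, MvPolynomial.C (s m : ℂ) *
          MvPolynomial.rename (Sum.map id (Sum.map id (fun j : Fin m => (j : ℕ)))) (P m) =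
        MvPolynomial.C c + MvPolynomial.C ((q₁ : ℂ) * Complex.I) * MvPolynomial.X (Sum.inl 1) +
          MvPolynomial.C (q₂ : ℂ) * MvPolynomial.X (Sum.inl 2) +
          ∑ l, MvPolynomial.C (r l : ℂ) * MvPolynomial.X (Sum.inr (Sum.inl l)) → s = 0)
    (m n g d : ℕ) (L : Set ℂ) (hL : IsCompact L)
    (hL' : ∀ x ∈ L, (1 + x * Complex.I) / (1 - x * Complex.I) ∈ Complex.slitPlane ∧
      4 * Complex.arctan x ∈ Complex.slitPlane ∧ ∀ l, x - b l ∈ Complex.slitPlane) (A ε : ℝ) (hε : 0 < ε) :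
    ∃ B C T₀ : ℝ, ∀ (F : Type) [Field F] [NumberField F], Module.finrank ℚ F ≤ m → ∀ (ι : F →+* ℂ) (ξ : Fin g → ℂ)
      (T : ℝ), T₀ ≤ T → (Exceptional b P M n d F ι ξ L A B T).Finite ∧
        ((Exceptional b P M n d F ι ξ L A B T).ncard : ℝ) ≤ C * T ^ ε * ((Points F ι L T).ncard : ℝ) ^ (n - 1) := by
  classical
  let E : ℕ → ℂ → ℂ := fun m x => tower b P x m
  have hE : ∀ m, ∀ z, E m z = Complex.exp (MvPolynomial.eval (Y87.TW.vM b E m z) (P m)) := by
    intro m z
    change tower b P z m = _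
    rw [tower]
    rfl
  have hloc : ∀ t ∈ L, Y124.LocInd (Y87.TW.yM b E M) t ∧ ∀ i, AnalyticAt ℂ (Y87.TW.yM b E M i) t :=
    fun t ht => Y87.TW.tower_loc hb hb' hE ⟨(hL' t ht).1, (hL' t ht).2.1, (hL' t ht).2.2⟩ M hP
  obtain ⟨B, C, T₀, hC, hT₀, H⟩ := Y124.excNF (h := Fin g) m n d (fun t i => Y87.TW.yM b E M i t) L
    (fun g' => Y124.oneV_of g' (Y87.TW.yM b E M) L hL (fun i t ht => (hloc t ht).2 i) fun t ht => (hloc t ht).1) A ε hε
  refine ⟨B, C, T₀, fun F _ _ hF ι ξ T hT => ?_⟩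
  have hT0 : 0 ≤ T := by linarith
  have hPt : Points F ι L T = {x : F | Y120.HtLe F T x ∧ ι x ∈ L} := by
    ext x
    constructor
    · rintro ⟨h1, a, b, hb, hab, hx⟩
      exact ⟨⟨a, b, hb, Y120.house_le F hT0 fun φ => (hab φ).1, Y120.house_le F hT0 fun φ => (hab φ).2, hx⟩, h1⟩
    · rintro ⟨⟨a, b, hb, ha, hb', hx⟩, h1⟩
      exact ⟨h1, a, b, hb, fun φ => ⟨(Y120.house_ge F _ φ).trans ha, (Y120.house_ge F _ φ).trans hb'⟩, hx⟩
  have hval : ∀ (s : ℂ) y, values b P M s y = Y87.TW.yM b E M y s := by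
    intro s y
    rcases y with j | (l | j)
    · fin_cases j <;> rfl
    · rfl
    · rfl
  have hsub : Exceptional b P M n d F ι ξ L A B T ⊆
      Y124.ExcNF n d F ι ξ (fun t i => Y87.TW.yM b E M i t) L A B T := by
    rintro t ⟨ht, Q, hQd, hQc, s₀, hs₀, hs⟩
    refine ⟨fun j => ?_, Q, hQd, hQc, s₀, hs₀, ?_⟩
    · have h1 := ht j
      rw [hPt] at h1
      exact h1
    · simp only [hval] at hs
      exact hs
  obtain ⟨h1, h2⟩ := H F hF ι ξ T hT
  refine ⟨h1.subset hsub, ?_⟩
  rw [hPt]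
  exact le_trans (by exact_mod_cast Set.ncard_le_ncard hsub h1) h2

end Pool.Agent.Results.MP_58e087_nt.AlmostAllPoints
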