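import Mathlib
import Pool.Agent.TH796.Fin.Fin8

set_option autoImplicit false

/-!
# Linear relations between `1`, `e`, `π` over fields generated by numbers of low digit complexity

Let `S` be an infinite set of integers. For a set `A` of bases let `K_A` be the field generated by
all real numbers with `O(n)` different blocks of `n` digits, `n ∈ S`, in some base of `A`. It
contains `ℚ`.

For all but at most two members `A` of any family of sets of bases, such that the subgroups of the
multiplicative group of `ℚ` generated by two different members have trivial intersection, and for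
all bases `b` not multiplicatively dependent on one of two bases `c`, `d`, with `A` the set of all
bases dependent on `b`:

(1) `e` and `π` are transcendental over `K_A`; moreover the only elements of `K_A` algebraic over
`ℚ(e)` or over `ℚ(π)` are the rational numbers;

(2) the relations `x + y e + z π = 0` with `x`, `y`, `z` algebraic over `K_A` are proportional to
each other, and in each of them, apart from `0`, `y` and `z` are not zero.
-/

namespace Pool.Agent.Results.MP_58e087_nt.LowComplexityRelations

open Filter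

/-- the digit of index `n + 1` after the point in the base `b` expansion of `x` -/
noncomputable def digit (b : ℕ) (x : ℝ) (n : ℕ) : ℤ := ⌊x * (b : ℝ) ^ (n + 1)⌋ % (b : ℤ)

/-- the number of different blocks of `n` consecutive digits (after the point) of `x` in base `b` -/
noncomputable def blocks (b : ℕ) (x : ℝ) (n : ℕ) : ℕ :=
  (Set.range fun i => fun j : Fin n => digit b x (i + j)).ncard

/-- the field generated by all real numbers which in some base `b ∈ A` have at most `C n` different
blocks of `n` digits for all `n ∈ S`; `b` and `C` may depend on the number. It contains `ℚ`. -/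
noncomputable def lowField (S A : Set ℕ) : Subfield ℝ :=
  Subfield.closure {x | ∃ b ∈ A, ∃ C : ℝ, ∀ n ∈ S, (blocks b x n : ℝ) ≤ C * n}

/-- the subgroup of the multiplicative group of `ℚ` generated by `A` -/
def group (A : Set ℕ) : Subgroup ℚˣ := Subgroup.closure {u | ∃ b ∈ A, ((u : ℚˣ) : ℚ) = b}

/-- multiplicatively independent bases -/
def Independent (b c : ℕ) : Prop := ∀ k l : ℕ, b ^ k = c ^ l → k = 0 ∧ l = 0

/-- `x + y e + z π = 0` is a relation with coefficients algebraic over `K` -/
def Relation (K : Subfield ℝ) (x y z : ℝ) : Prop :=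
  IsAlgebraic K x ∧ IsAlgebraic K y ∧ IsAlgebraic K z ∧
    x + y * Real.exp 1 + z * Real.pi = 0

/-- the properties (1) and (2) of the field `K` -/
structure Good (K : Subfield ℝ) : Prop where
  transcendental_e : Transcendental K (Real.exp 1)
  transcendental_pi : Transcendental K Real.pi
  rational : ∀ t ∈ K, IsAlgebraic (Algebra.adjoin ℤ ({Real.exp 1} : Set ℝ)) t ∨
    IsAlgebraic (Algebra.adjoin ℤ ({Real.pi} : Set ℝ)) t → ∃ q : ℚ, t = q
  ne_zero : ∀ x y z : ℝ, Relation K x y z → (x = 0 ∧ y = 0 ∧ z = 0) ∨ (y ≠ 0 ∧ z ≠ 0)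
  proportional : ∀ x y z x' y' z' : ℝ, Relation K x y z → Relation K x' y' z' →
    x * y' = x' * y ∧ x * z' = x' * z ∧ y * z' = y' * z

theorem good_of {K : Subfield ℝ} (he : Pool.Agent.TH796.AL.Alg.Free K (Real.exp 1))
    (hp : Pool.Agent.TH796.AL.Alg.Free K Real.pi) : Good K := by
  have key : ∀ {t x y : ℝ}, Transcendental K t → IsAlgebraic K x → IsAlgebraic K y →
      x + y * t = 0 → x = 0 ∧ y = 0 := by
    intro t x y ht hx hy h
    have hy0 : y = 0 := by
      by_contra hy0
      apply ht
      have e : t = (-x) * y⁻¹ := by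
        rw [eq_mul_inv_iff_mul_eq₀ hy0]
        linarith
      rw [e]
      exact hx.neg.mul hy.inv
    subst hy0
    exact ⟨by simpa using h, rfl⟩
  refine ⟨he.1, hp.1, ?_, ?_, ?_⟩
  · intro t ht h
    by_contra hq
    have hirr : Irrational t := by
      rintro ⟨q, hq'⟩
      exact hq ⟨q, hq'.symm⟩
    rcases h with h | h
    · exact he.2 t hirr h ht
    · exact hp.2 t hirr h ht
  · rintro x y z ⟨hx, hy, hz, h⟩
    by_cases hy0 : y = 0
    · subst hy0
      have := key hp.1 hx hz (by linarith)
      exact Or.inl ⟨this.1, rfl, this.2⟩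
    · by_cases hz0 : z = 0
      · subst hz0
        have := key he.1 hx hy (by linarith)
        exact absurd this.2 hy0
      · exact Or.inr ⟨hy0, hz0⟩
  · rintro x y z x' y' z' ⟨hx, hy, hz, h⟩ ⟨hx', hy', hz', h'⟩
    have h1 := key he.1 ((hx.mul hz').sub (hx'.mul hz)) ((hy.mul hz').sub (hy'.mul hz)) (by
      linear_combination z' * h - z * h')
    have h2 := key hp.1 ((hx.mul hy').sub (hx'.mul hy)) ((hz.mul hy').sub (hz'.mul hy)) (by
      linear_combination y' * h - y * h')
    exact ⟨sub_eq_zero.1 h2.1, sub_eq_zero.1 h1.1, sub_eq_zero.1 h1.2⟩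

/-- **Linear relations between `1`, `e`, `π`.** -/
theorem result (S : Set ℕ) (hS : S.Infinite) :
    (∀ (ι : Type) (A : ι → Set ℕ), (∀ i, ∀ b ∈ A i, 2 ≤ b) →
      (∀ i j, i ≠ j → group (A i) ⊓ group (A j) = ⊥) →
      ∃ E : Set ι, E.encard ≤ 2 ∧ ∀ i, i ∉ E → Good (lowField S (A i))) ∧
    ∃ c d : ℕ, 2 ≤ c ∧ 2 ≤ d ∧ ∀ b : ℕ, 2 ≤ b → Independent b c → Independent b d →
      Good (lowField S {k | 2 ≤ k ∧ ¬ Independent k b}) := by
  have hme : Pool.Agent.TH456.TM.MeasT ((Real.exp 1 : ℝ) : ℂ) :=
    Pool.Agent.TH796.AL.Ai.measT_of (Or.inl rfl)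
  have hmp : Pool.Agent.TH456.TM.MeasT ((Real.pi : ℝ) : ℂ) :=
    Pool.Agent.TH796.AL.Ai.measT_of (Or.inr (Or.inl rfl))
  have hte : Transcendental ℚ (Real.exp 1) := Pool.Agent.TH796.AL.Alg.transc_of_measT hme
  have htp : Transcendental ℚ Real.pi := Pool.Agent.TH796.AL.Alg.transc_of_measT hmp
  have hUe : ¬ Pool.Agent.TH796.AL.Ai.UNumber (Real.exp 1) :=
    Pool.Agent.TH796.AL.Ai.not_unumber hme
  have hUp : ¬ Pool.Agent.TH796.AL.Ai.UNumber Real.pi :=
    Pool.Agent.TH796.AL.Ai.not_unumber hmp
  refine ⟨fun ι A hA hAA => ?_, ?_⟩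
  · -- at most one exception for each of `e`, `π`
    have one : ∀ z : ℝ, Transcendental ℚ z → ¬ Pool.Agent.TH796.AL.Ai.UNumber z →
        {i | ¬ Pool.Agent.TH796.AL.Alg.Free (lowField S (A i)) z}.encard ≤ 1 := by
      intro z hz hU
      rw [Set.encard_le_one_iff]
      intro i j hi hj
      by_contra hij
      rcases Pool.Agent.TH796.AL.Alg.free_pair hz hU (hA i) (hA j) (hAA i j hij) hS with h | h
      · exact hi h
      · exact hj h
    refine ⟨{i | ¬ Pool.Agent.TH796.AL.Alg.Free (lowField S (A i)) (Real.exp 1)} ∪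
      {i | ¬ Pool.Agent.TH796.AL.Alg.Free (lowField S (A i)) Real.pi}, ?_, ?_⟩
    · refine (Set.encard_union_le _ _).trans ?_
      refine (add_le_add (one _ hte hUe) (one _ htp hUp)).trans ?_
      norm_num
    · intro i hi
      simp only [Set.mem_union, Set.mem_ofPred_eq, not_or, not_not] at hi
      exact good_of hi.1 hi.2
  · obtain ⟨c, hc, h1⟩ := Pool.Agent.TH796.Fin.free_cls hte hUe hS
    obtain ⟨d, hd, h2⟩ := Pool.Agent.TH796.Fin.free_cls htp hUp hS
    exact ⟨c, d, hc, hd, fun b hb hbc hbd => good_of (h1 b hb hbc) (h2 b hb hbd)⟩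

end Pool.Agent.Results.MP_58e087_nt.LowComplexityRelations
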