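import Pool.Agent.TH550.NRZ.Unif
import Pool.Agent.TH550.NRZ.Elim
import Pool.Agent.TH647.NR.Rank

/-!
# Near linear relations between powers of `e` and arbitrary real numbers (for instance `π`)
-/

set_option autoImplicit false

namespace Pool.Agent.Results.MP_58e087_nt.NearRelations

open Real

/-- the value `∑ a_i e ^ (k_i) + ∑ b_j t_j` of the integer vector `v = (a, b)` -/
noncomputable def value {m r : ℕ} (k : Fin (m + 1) → ℕ) (t : Fin r → ℝ)
    (v : (Fin (m + 1) → ℤ) × (Fin r → ℤ)) : ℝ :=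
  ∑ i, (v.1 i : ℝ) * exp (k i) + ∑ j, (v.2 j : ℝ) * t j

/-- the primitive integer vectors `v = (a, b)`, `b > 0`, of norm (largest absolute value of a
coordinate) at most `X` with `|∑ a_i e ^ (k_i) + b t| ≤ ‖v‖ ^ (-w)` -/
def Near {m : ℕ} (k : Fin (m + 1) → ℕ) (t w X : ℝ) : Set ((Fin (m + 1) → ℤ) × ℤ) :=
  {v | 0 < v.2 ∧ (∀ d : ℤ, (∀ i, d ∣ v.1 i) → d ∣ v.2 → IsUnit d) ∧ ‖v‖ ≤ X ∧
    |(∑ i, (v.1 i : ℝ) * exp (k i)) + v.2 * t| ≤ ‖v‖ ^ (-w)}

theorem result (m : ℕ) (k : Fin (m + 1) → ℕ) (hk : Function.Injective k) (hk0 : k 0 = 0) :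
    -- `r + 1` linearly independent vectors are not all near relations, for all `t_1, …, t_r`
    (∀ (r : ℕ) (η : ℝ), 0 < η → ∃ c : ℝ, 0 < c ∧ ∀ (t : Fin r → ℝ)
      (v : Fin (r + 1) → (Fin (m + 1) → ℤ) × (Fin r → ℤ)), LinearIndependent ℤ v →
        ∃ i, c * ‖v i‖ * ∏ j, ‖v j‖ ^ (-((m : ℝ) + 1 + η)) ≤ |value k t (v i)|) ∧
    -- the near relations with one more number `t` are sparse, uniformly in `t`
    (∀ w ρ : ℝ, 2 * (m : ℝ) + 1 < w → 1 < ρ → ρ < (w - m) / (m + 1) →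
      ∃ C : ℝ, ∀ t X : ℝ, 3 ≤ X → (Near k t w X).Finite ∧
        ((Near k t w X).ncard : ℝ) ≤ log (log X) / log ρ + C) := by
  have meas : ∀ η : ℝ, 0 < η → ∃ c : ℝ, 0 < c ∧
      Pool.Agent.W472.AC.Meas (fun i => exp (k i)) (m + η) c := by
    intro η hη
    obtain ⟨c, hc, h⟩ := Pool.Agent.W472.AC.e_meas m (fun i => (k i : ℤ))
      (fun i j hij => hk (Int.ofNat_inj.1 hij)) (by simp [hk0]) (fun i => by positivity) η hη
    refine ⟨c, hc, ?_⟩
    simpa using h
  constructor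
  · intro r η hη
    obtain ⟨c, hc, h⟩ := meas η hη
    obtain ⟨c', hc', h'⟩ := Pool.Agent.TH550.NRZ.product_ineq (fun i => exp (k i)) (m + η) c
      (by positivity) hc h r
    refine ⟨c' / (r + 1), by positivity, fun t v hv => ?_⟩
    have hv1 : ∀ i, 1 ≤ ‖v i‖ := by
      intro i
      have h0 : v i ≠ 0 := hv.ne_zero i
      by_contra hcon
      push Not at hcon
      apply h0
      have h1 : ∀ j, (v i).1 j = 0 := fun j => by
        have h2 := (Pool.Agent.TH647.NR.norm_fst_apply_le (v i) j).trans_lt hcon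
        rw [Int.norm_eq_abs] at h2
        exact Int.abs_lt_one_iff.1 (by exact_mod_cast h2)
      have h3 : ∀ j, (v i).2 j = 0 := fun j => by
        have h2 := (Pool.Agent.TH647.NR.norm_snd_apply_le (v i) j).trans_lt hcon
        rw [Int.norm_eq_abs] at h2
        exact Int.abs_lt_one_iff.1 (by exact_mod_cast h2)
      exact Prod.ext (funext h1) (funext h3)
    have h2 := h' t (fun i => (v i).1) (fun i => (v i).2) hv (fun i => ‖v i‖) hv1
      (fun i j => Pool.Agent.TH647.NR.norm_fst_apply_le (v i) j)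
      (fun i j => Pool.Agent.TH647.NR.norm_snd_apply_le (v i) j)
    by_contra hcon
    push Not at hcon
    set P : ℝ := ∏ j, ‖v j‖ ^ (-((m : ℝ) + 1 + η)) with hP
    have e1 : ∏ i, ‖v i‖ ^ (-((m : ℝ) + η + 1)) = P := by
      rw [hP]
      refine Finset.prod_congr rfl fun i _ => ?_
      congr 1
      ring
    rw [e1] at h2
    have h3 : ∑ i, |(∑ j, ((v i).1 j : ℝ) * exp (k j)) + ∑ j, ((v i).2 j : ℝ) * t j| / ‖v i‖ <
        ∑ _i : Fin (r + 1), c' / (r + 1) * P := by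
      refine Finset.sum_lt_sum_of_nonempty Finset.univ_nonempty fun i _ => ?_
      have h4 := hcon i
      have h5 : 0 < ‖v i‖ := by linarith [hv1 i]
      rw [div_lt_iff₀ h5]
      unfold value at h4
      calc _ < _ := h4
        _ = _ := by ring
    rw [Finset.sum_const, Finset.card_univ, Fintype.card_fin, nsmul_eq_mul] at h3
    have h6 : ((r + 1 : ℕ) : ℝ) * (c' / (r + 1) * P) = c' * P := by
      push_cast
      field_simp
    rw [h6] at h3
    linarith
  · intro w ρ hw hρ hρw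
    have hm : (0 : ℝ) < (m : ℝ) + 1 := by positivity
    obtain ⟨η, hη0, hη1, hη2⟩ : ∃ η : ℝ, 0 < η ∧ 2 * (m + η) + 1 < w ∧
        ρ < (w - (m + η)) / (m + η + 1) := by
      rw [lt_div_iff₀ hm] at hρw
      set δ : ℝ := min ((w - (2 * m + 1)) / 4) ((w - m - ρ * (m + 1)) / (2 * (ρ + 1))) with hδ
      have hd1 : 0 < (w - (2 * m + 1)) / 4 := by linarith
      have hd2 : 0 < (w - m - ρ * (m + 1)) / (2 * (ρ + 1)) := by
        apply div_pos <;> linarith
      refine ⟨δ, lt_min hd1 hd2, ?_, ?_⟩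
      · have := min_le_left ((w - (2 * m + 1)) / 4) ((w - m - ρ * (m + 1)) / (2 * (ρ + 1)))
        linarith
      · have h1 := min_le_right ((w - (2 * m + 1)) / 4) ((w - m - ρ * (m + 1)) / (2 * (ρ + 1)))
        have h0 : 0 < δ := lt_min hd1 hd2
        rw [← hδ, le_div_iff₀ (by linarith)] at h1
        rw [lt_div_iff₀ (by linarith)]
        nlinarith
    obtain ⟨c, hc, h⟩ := meas η hη0
    obtain ⟨C, hC⟩ := Pool.Agent.TH550.NRZ.sparse_unif (fun i => exp (k i)) (m + η) c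
      (by positivity) hc h w ρ hη1 hρ hη2
    refine ⟨C, fun t X hX => ?_⟩
    have e : Near k t w X = {v ∈ {v : (Fin (m + 1) → ℤ) × ℤ | 0 < v.2 ∧
        Pool.Agent.TH647.NR.Prim v ∧
        |Pool.Agent.TH647.NR.lin (fun i => exp (k i)) t v| ≤ ‖v‖ ^ (-w)} | ‖v‖ ≤ X} := by
      ext v
      constructor
      · rintro ⟨h1, h2, h3, h4⟩; exact ⟨⟨h1, h2, h4⟩, h3⟩
      · rintro ⟨⟨h1, h2, h4⟩, h3⟩; exact ⟨h1, h2, h3, h4⟩
    rw [e]
    exact hC t X hX

end Pool.Agent.Results.MP_58e087_nt.NearRelations
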